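import Mathlib
import Pool.Agent.R583.NSUltra

/-!
# Tilde-divisibility and elements of monads

Let `F` be a nonprincipal ultrafilter containing the set of odd primes, `K` the image of a
nonprincipal ultrafilter under `k ↦ 2 ^ k` and `G = K · F`. Then `F ∣~ G`. Let `*ℕ` be the
ultrapower modulo a nonprincipal ultrafilter of an enlargement and `x ∈ μ(F)` the class of the
function `n ↦ pr n` of the first coordinate. Then `x` does not divide any element of `μ(G)`.
-/

set_option autoImplicit false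

namespace Pool.Agent.Results.MP_2734af_lc.TildeDivisibility

open FirstOrder FirstOrder.Language Filter Pool.Agent.R583.NS

/-- `A↑`, the set of all multiples of elements of `A`. -/
def up (A : Set ℕ+) : Set ℕ+ := {n | ∃ a ∈ A, a ∣ n}

/-- `F ∣~ G`: for every `A ∈ F` the set `A↑` is in `G`. -/
def TildeDvd (F G : Ultrafilter ℕ+) : Prop := ∀ A ∈ F, up A ∈ G

/-- the `n`-th odd prime -/
noncomputable def pr (n : ℕ+) : ℕ+ := ⟨Nat.nth Nat.Prime n, (Nat.prime_nth_prime n).pos⟩

theorem pr_inj {m n : ℕ+} (h : pr m = pr n) : m = n := by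
  have h1 : Nat.nth Nat.Prime m = Nat.nth Nat.Prime n := congrArg (fun x : ℕ+ => (x : ℕ)) h
  exact PNat.coe_injective (Nat.nth_injective Nat.infinite_setOfPred_prime h1)

theorem pr_prime (n : ℕ+) : Nat.Prime (pr n : ℕ) := Nat.prime_nth_prime n

theorem pr_ne_two (n : ℕ+) : (pr n : ℕ) ≠ 2 := by
  intro h
  have h1 : Nat.nth Nat.Prime n = Nat.nth Nat.Prime 0 := by
    rw [Nat.nth_prime_zero_eq_two]; exact h
  exact n.ne_zero (Nat.nth_injective Nat.infinite_setOfPred_prime h1)

theorem le_pr (n : ℕ+) : n < pr n := by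
  have h1 : (n : ℕ) + 2 ≤ Nat.nth Nat.Prime n := Nat.add_two_le_nth_prime n
  have h2 : (n : ℕ) < (pr n : ℕ) := by
    change (n : ℕ) < Nat.nth Nat.Prime n
    omega
  exact h2

/-- the first ultrafilter -/
noncomputable def F : Ultrafilter ℕ+ := hyp.map pr

/-- the second ultrafilter, `G = K · F` -/
noncomputable def G : Ultrafilter ℕ+ := hyp.bind fun k : ℕ+ => F.map fun p : ℕ+ => (2 : ℕ+) ^ (k : ℕ) * p

theorem mem_G {A : Set ℕ+} :
    A ∈ G ↔ ∀ᶠ k : ℕ+ in (hyp : Filter ℕ+), ∀ᶠ n : ℕ+ in (hyp : Filter ℕ+),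
      (2 : ℕ+) ^ (k : ℕ) * pr n ∈ A := Iff.rfl

theorem tildeDvd : TildeDvd F G := by
  intro A hA
  rw [mem_G]
  refine Eventually.of_forall fun k => ?_
  have h1 : ∀ᶠ n in (hyp : Filter ℕ+), pr n ∈ A := hA
  filter_upwards [h1] with n hn
  exact ⟨pr n, hn, Dvd.intro_left _ rfl⟩

/-- the ultrafilter defining the ultrapower -/
noncomputable def D : Ultrafilter (ℕ+ × J) := hyp.bind fun n => EJ.map fun j => (n, j)

theorem eventually_D {p : ℕ+ × J → Prop} :
    (∀ᶠ i in (D : Filter (ℕ+ × J)), p i) ↔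
      ∀ᶠ n in (hyp : Filter ℕ+), ∀ᶠ j in (EJ : Filter J), p (n, j) := Iff.rfl

theorem prime_dvd {k m n : ℕ+} (h : pr m ∣ 2 ^ (k : ℕ) * pr n) : m = n := by
  have h1 : (pr m : ℕ) ∣ 2 ^ (k : ℕ) * (pr n : ℕ) := by
    have := PNat.dvd_iff.1 h
    simpa [PNat.mul_coe, PNat.pow_coe] using this
  rcases (pr_prime m).dvd_mul.1 h1 with h2 | h2
  · have h3 := (pr_prime m).dvd_of_dvd_pow h2
    exact absurd ((Nat.prime_dvd_prime_iff_eq (pr_prime m) Nat.prime_two).1 h3) (pr_ne_two m)
  · have h3 := (Nat.prime_dvd_prime_iff_eq (pr_prime m) (pr_prime n)).1 h2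
    exact pr_inj (PNat.coe_injective h3)

/-- **Main theorem.** There are an enlargement `S = *ℕ` of the positive integers, ultrafilters
`F ∣~ G` and an element `x` of the monad of `F` which does not divide any element of the monad
of `G`. -/
theorem result :
    ∃ (S : Type) (_ : fullLang.Structure S) (_ : ℕ+ ↪ₑ[fullLang] S), IsEnlargement S ∧
      (∀ F : Ultrafilter ℕ+, (monad S F).Nonempty) ∧
      ∃ F G : Ultrafilter ℕ+, TildeDvd F G ∧ ∃ x ∈ monad S F, ∀ y ∈ monad S G, ¬ StarDvd x y := by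
  have hm : ∀ V : Ultrafilter ℕ+, (monad (UPow D) V).Nonempty := by
    intro V
    refine ⟨cls D fun i => i.2 V, fun A hA => ?_⟩
    rw [mem_star, eventually_D]
    exact Eventually.of_forall fun n => EJ_proj V hA
  refine ⟨UPow D, inferInstance, diag D, isEnlargement_of_monad hm, hm, F, G, tildeDvd,
    cls D fun i => pr i.1, ?_, ?_⟩
  · intro A hA
    rw [mem_star, eventually_D]
    have h1 : ∀ᶠ n in (hyp : Filter ℕ+), pr n ∈ A := hA
    filter_upwards [h1] with n hn
    exact Eventually.of_forall fun j => hn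
  · intro y hy hxy
    obtain ⟨g, rfl⟩ := cls_surj D y
    rw [starDvd_cls, eventually_D] at hxy
    -- the elements `2 ^ k p` with `k < p`
    have hB : {a : ℕ+ | ∃ k n : ℕ+, k < n ∧ a = 2 ^ (k : ℕ) * pr n} ∈ G := by
      rw [mem_G]
      refine Eventually.of_forall fun k => ?_
      filter_upwards [eventually_gt k] with n hn
      exact ⟨k, n, hn, rfl⟩
    have h1 := hy _ hB
    rw [mem_star, eventually_D] at h1
    -- for almost all `n` the value of `k` is constant
    have h2 : ∀ᶠ n in (hyp : Filter ℕ+), ∃ k : ℕ+, ∀ᶠ j in (EJ : Filter J),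
        g (n, j) = 2 ^ (k : ℕ) * pr n := by
      filter_upwards [hxy, h1] with n hn hn'
      have h3 : ∀ᶠ j in (EJ : Filter J), ∃ k ∈ Set.Iio n, g (n, j) = 2 ^ (k : ℕ) * pr n := by
        filter_upwards [hn, hn'] with j hj hj'
        obtain ⟨k, m, hkm, he⟩ := hj'
        rw [he] at hj
        have h4 := prime_dvd hj
        subst h4
        exact ⟨k, hkm, he⟩
      have h4 := (Ultrafilter.eventually_exists_mem_iff (Set.finite_Iio n)).1 h3
      obtain ⟨k, -, hk⟩ := h4
      exact ⟨k, hk⟩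
    have h5 : ∃ q : ℕ+ → ℕ+, ∀ᶠ n in (hyp : Filter ℕ+), ∀ᶠ j in (EJ : Filter J),
        g (n, j) = 2 ^ ((q n : ℕ+) : ℕ) * pr n := by
      classical
      refine ⟨fun n => if h : ∃ k : ℕ+, ∀ᶠ j in (EJ : Filter J), g (n, j) = 2 ^ (k : ℕ) * pr n
        then h.choose else 1, ?_⟩
      filter_upwards [h2] with n hn
      simp only [dif_pos hn]
      exact hn.choose_spec
    obtain ⟨q, hq⟩ := h5
    have hA : {a : ℕ+ | ∃ k n : ℕ+, k ≠ q n ∧ a = 2 ^ (k : ℕ) * pr n} ∈ G := by
      rw [mem_G]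
      by_cases hc : ∃ k₀ : ℕ+, ∀ᶠ n in (hyp : Filter ℕ+), q n = k₀
      · obtain ⟨k₀, hk₀⟩ := hc
        filter_upwards [eventually_gt k₀] with k hk
        filter_upwards [hk₀] with n hn
        exact ⟨k, n, fun h => hk.ne' (h.trans hn), rfl⟩
      · push Not at hc
        refine Eventually.of_forall fun k => ?_
        have h6 : ∀ᶠ n in (hyp : Filter ℕ+), ¬ q n = k :=
          hc k
        filter_upwards [h6] with n hn
        exact ⟨k, n, fun h => hn h.symm, rfl⟩
    have h7 := hy _ hA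
    rw [mem_star, eventually_D] at h7
    obtain ⟨n, hn, hn'⟩ := (h7.and hq).exists
    obtain ⟨j, hj, hj'⟩ := (hn.and hn').exists
    obtain ⟨k, m, hkm, he⟩ := hj
    rw [hj'] at he
    have h8 : n = m := prime_dvd (k := k) (he ▸ Dvd.intro_left _ rfl)
    subst h8
    have h9 : (2 : ℕ+) ^ ((q n : ℕ+) : ℕ) = 2 ^ (k : ℕ) := mul_right_cancel he
    have h10 : (2 : ℕ) ^ ((q n : ℕ+) : ℕ) = 2 ^ (k : ℕ) := by
      have := congrArg (fun x : ℕ+ => (x : ℕ)) h9
      simpa [PNat.pow_coe] using this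
    exact hkm (PNat.coe_injective (Nat.pow_right_injective le_rfl h10)).symm

end Pool.Agent.Results.MP_2734af_lc.TildeDivisibility
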